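import Pool.Agent.H624.DT.Unr
import Pool.Agent.Y901.DT.Et

/-!
# Project DT, job DT6-ET (copy B): adjoining a simple root to a stage (helper739)

Adapted from `Pool.Agent.H624.DT.stage` (helper624) and `Pool.Agent.Y901.DT.core` (helper901).
-/

set_option autoImplicit false
set_option linter.unusedVariables false
set_option linter.unusedSectionVars false

universe u

namespace Pool.Agent.Y739.DT6

open Pool.Agent.W418.LU2 Pool.Agent.H176.DT Pool.Agent.H624.DT IsLocalRing Polynomial
open Pool.Agent.Y901.DT (Cf aeval_lt der_lt mem_of_root)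

section core

/-- coefficients in `P` -/
def CfP {E : Type u} [Field E] (P : Subring E) (q : E[X]) : Prop := ∀ i, q.coeff i ∈ P

lemma divP {E : Type u} [Field E] {P : Subring E} {f g : E[X]} (hf : CfP P f) (hg : CfP P g)
    (hm : g.Monic) : CfP P (f /ₘ g) ∧ CfP P (f %ₘ g) := by
  have hf' : (↑f.coeffs : Set E) ⊆ P := by
    intro a ha
    obtain ⟨n, -, rfl⟩ := Polynomial.mem_coeffs_iff.1 ha
    exact hf n
  have hg' : (↑g.coeffs : Set E) ⊆ P := by
    intro a ha
    obtain ⟨n, -, rfl⟩ := Polynomial.mem_coeffs_iff.1 ha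
    exact hg n
  have hgm : (g.toSubring P hg').Monic := (Polynomial.monic_toSubring _ _ _).2 hm
  have e1 := Polynomial.map_divByMonic (p := f.toSubring P hf') P.subtype hgm
  have e2 := Polynomial.map_modByMonic (p := f.toSubring P hf') P.subtype hgm
  have e3 : (f.toSubring P hf').map P.subtype = f := Polynomial.map_toSubring _ _ _
  have e4 : (g.toSubring P hg').map P.subtype = g := Polynomial.map_toSubring _ _ _
  rw [e3, e4] at e1 e2
  constructor
  · intro i
    rw [← e1, coeff_map]
    exact Subtype.prop _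
  · intro i
    rw [← e2, coeff_map]
    exact Subtype.prop _

variable {E F : Type u} [Field E] [Field F] [Algebra E F] {V : ValuationSubring F}

/-- factorization over the local ring of the stage -/
theorem coreP (V : ValuationSubring F) (P : Subring E) (hPV : ∀ a ∈ P, algebraMap E F a ∈ V)
    (hinv : ∀ a ∈ P, V.valuation (algebraMap E F a) = 1 → a⁻¹ ∈ P) (η : F)
    (f : E[X]) (hm : f.Monic) (hf : CfP P f) (h0 : aeval η f = 0)
    (h1 : V.valuation (aeval η (derivative f)) = 1) : ∃ g h : E[X], g.Monic ∧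
    (∀ i, g.coeff i ∈ P) ∧ (∀ i, h.coeff i ∈ P) ∧
    (∀ i, V.valuation (algebraMap E F ((f - g * h).coeff i)) < 1) ∧
    V.valuation (aeval η g) < 1 ∧ V.valuation (aeval η h) = 1 ∧
    ∀ q : E[X], (∀ i, q.coeff i ∈ P) → q.degree < g.degree →
      V.valuation (aeval η q) < 1 → ∀ i, V.valuation (algebraMap E F (q.coeff i)) < 1 := by
  classical
  have hV : ∀ {q : E[X]}, CfP P q → Cf (F := F) V q := fun hq i => hPV _ (hq i)
  have hη : η ∈ V := mem_of_root hm (hV hf) h0
  have hex : ∃ n : ℕ, ∃ g : E[X], g.natDegree = n ∧ g.Monic ∧ CfP P g ∧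
      V.valuation (aeval η g) < 1 := ⟨_, f, rfl, hm, hf, by rw [h0, map_zero]; exact zero_lt_one⟩
  obtain ⟨g, hgn, hgm, hg, hg1⟩ := Nat.find_spec hex
  have hmin : ∀ g' : E[X], g'.natDegree < g.natDegree → g'.Monic → CfP P g' →
      ¬ V.valuation (aeval η g') < 1 := by
    intro g' h2 h3 h4 h5
    rw [hgn] at h2
    exact Nat.find_min hex h2 ⟨g', rfl, h3, h4, h5⟩
  have key : ∀ q : E[X], (∀ i, q.coeff i ∈ P) → q.degree < g.degree →
      V.valuation (aeval η q) < 1 → ∀ i, V.valuation (algebraMap E F (q.coeff i)) < 1 := by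
    intro q hq hdeg hq1
    by_contra hcon
    push Not at hcon
    obtain ⟨i0, hi0⟩ := hcon
    have hq0 : q ≠ 0 := by
      rintro rfl
      rw [coeff_zero, map_zero, map_zero] at hi0
      exact absurd hi0 (not_le.2 zero_lt_one)
    have hi0s : i0 ∈ q.support.filter fun i => V.valuation (algebraMap E F (q.coeff i)) = 1 := by
      rw [Finset.mem_filter, mem_support_iff]
      refine ⟨?_, le_antisymm ((V.valuation_le_one_iff _).2 (hPV _ (hq i0))) hi0⟩
      intro h
      rw [h, map_zero, map_zero] at hi0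
      exact absurd hi0 (not_le.2 zero_lt_one)
    obtain ⟨j, hj, hjmax⟩ := (q.support.filter fun i =>
      V.valuation (algebraMap E F (q.coeff i)) = 1).exists_max_image id ⟨i0, hi0s⟩
    rw [Finset.mem_filter] at hj
    have hjlt : ∀ i, j < i → V.valuation (algebraMap E F (q.coeff i)) < 1 := by
      intro i hi
      by_contra h
      push Not at h
      have h2 : V.valuation (algebraMap E F (q.coeff i)) = 1 :=
        le_antisymm ((V.valuation_le_one_iff _).2 (hPV _ (hq i))) h
      have h3 : i ∈ q.support.filter fun i => V.valuation (algebraMap E F (q.coeff i)) = 1 := by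
        rw [Finset.mem_filter, mem_support_iff]
        refine ⟨?_, h2⟩
        intro h4
        rw [h4, map_zero, map_zero] at h2
        exact zero_ne_one h2
      have h4 := hjmax i h3
      simp only [id] at h4
      omega
    obtain ⟨a, ha⟩ : ∃ a : E, a = q.coeff j := ⟨_, rfl⟩
    have ha1 : V.valuation (algebraMap E F a) = 1 := by rw [ha]; exact hj.2
    have ha0 : a ≠ 0 := by
      rintro rfl
      rw [map_zero, map_zero] at ha1
      exact zero_ne_one ha1
    have hai : a⁻¹ ∈ P := hinv a (by rw [ha]; exact hq j) ha1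
    -- the truncated polynomial
    obtain ⟨p, hp⟩ : ∃ p : E[X], ∀ i, p.coeff i = if i ≤ j then q.coeff i else 0 := by
      refine ⟨∑ i ∈ Finset.range (j + 1), monomial i (q.coeff i), fun i => ?_⟩
      rw [finsetSum_coeff]
      simp only [coeff_monomial]
      rw [Finset.sum_ite_eq']
      simp only [Finset.mem_range, Nat.lt_succ_iff]
    have hpq : ∀ i, V.valuation (algebraMap E F ((q - p).coeff i)) < 1 := by
      intro i
      rw [coeff_sub, hp]
      split_ifs with h
      · rw [sub_self, map_zero, map_zero]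
        exact zero_lt_one
      · rw [sub_zero]
        exact hjlt i (not_le.1 h)
    have hp1 : V.valuation (aeval η p) < 1 := by
      have h2 := aeval_lt hpq hη
      rw [map_sub] at h2
      have h3 : aeval η p = aeval η q - (aeval η q - aeval η p) := by ring
      rw [h3]
      exact lt_of_le_of_lt (Valuation.map_sub _ _ _) (max_lt hq1 h2)
    have hpC : CfP P p := by
      intro i
      rw [hp]
      split_ifs
      · exact hq i
      · exact zero_mem _
    have hpn : p.natDegree = j := by
      apply le_antisymm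
      · rw [natDegree_le_iff_coeff_eq_zero]
        intro i hi
        rw [hp, if_neg (not_le.2 hi)]
      · apply le_natDegree_of_ne_zero
        rw [hp, if_pos le_rfl, ← ha]
        exact ha0
    have hpl : p.leadingCoeff = a := by
      rw [leadingCoeff, hpn, hp, if_pos le_rfl, ha]
    have hjg : j < g.natDegree := by
      have h2 : j ≤ q.natDegree := le_natDegree_of_ne_zero (by rw [← ha]; exact ha0)
      have h3 : q.natDegree < g.natDegree := natDegree_lt_natDegree hq0 hdeg
      omega
    refine hmin (C a⁻¹ * p) ?_ ?_ ?_ ?_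
    · rw [natDegree_C_mul (inv_ne_zero ha0), hpn]
      exact hjg
    · rw [Monic, leadingCoeff_mul, leadingCoeff_C, hpl, inv_mul_cancel₀ ha0]
    · intro i
      rw [coeff_C_mul]
      exact mul_mem hai (hpC i)
    · rw [map_mul, aeval_C, map_mul, map_inv₀, map_inv₀, ha1, inv_one, one_mul]
      exact hp1
  obtain ⟨hh, hs⟩ := divP hf hg hgm
  have hdm : f %ₘ g + g * (f /ₘ g) = f := modByMonic_add_div f g
  have hhη := (hV hh).aeval_mem hη
  have hhη1 : V.valuation (aeval η (f /ₘ g)) ≤ 1 := (V.valuation_le_one_iff _).2 hhη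
  have hs1 : V.valuation (aeval η (f %ₘ g)) < 1 := by
    have h2 : aeval η (f %ₘ g) = -(aeval η g * aeval η (f /ₘ g)) := by
      have h3 := congrArg (aeval η) hdm
      rw [map_add, map_mul, h0] at h3
      exact eq_neg_of_add_eq_zero_left h3
    rw [h2, Valuation.map_neg, map_mul]
    exact mul_lt_one_of_lt_of_le hg1 hhη1
  have hs2 := key _ hs (degree_modByMonic_lt f hgm) hs1
  refine ⟨g, f /ₘ g, hgm, hg, hh, ?_, hg1, ?_, key⟩
  · intro i
    have h2 : f - g * (f /ₘ g) = f %ₘ g := by
      rw [sub_eq_iff_eq_add]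
      exact hdm.symm
    rw [h2]
    exact hs2 i
  · apply le_antisymm hhη1
    by_contra hcon
    push Not at hcon
    have h2 : aeval η (derivative f) = aeval η (derivative (f %ₘ g)) +
        (aeval η (derivative g) * aeval η (f /ₘ g) + aeval η g * aeval η (derivative (f /ₘ g))) := by
      conv_lhs => rw [← hdm]
      rw [derivative_add, derivative_mul, map_add, map_add, map_mul, map_mul]
    have h3 : V.valuation (aeval η (derivative f)) < 1 := by
      rw [h2]
      refine lt_of_le_of_lt (Valuation.map_add _ _ _) (max_lt (aeval_lt (der_lt hs2) hη) ?_)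
      refine lt_of_le_of_lt (Valuation.map_add _ _ _) (max_lt ?_ ?_)
      · rw [map_mul, mul_comm]
        exact mul_lt_one_of_lt_of_le hcon ((V.valuation_le_one_iff _).2 ((hV hg).der.aeval_mem hη))
      · rw [map_mul]
        exact mul_lt_one_of_lt_of_le hg1 ((V.valuation_le_one_iff _).2 ((hV hh).der.aeval_mem hη))
    exact h3.ne h1

end core

section stage

variable {E F : Type u} [Field E] [Field F] [Algebra E F] (V : ValuationSubring F)

theorem stageP (h4 : S_ext.{u}) (h5 : S_map.{u}) (h6 : S_adj.{u}) (h7 : S_cut.{u}) (h8 : S_alg.{u})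
    (B : Subring E) (hB : B ≤ (V.comap (algebraMap E F)).toSubring)
    (hBE : ∀ a : E, ∃ b ∈ B, b ≠ 0 ∧ a * b ∈ B)
    (η : F) (hη : η ∈ V) (hgen : ∀ z : F, ∃ f : E[X], aeval η f = z) (μ g h : E[X])
    (hμ : μ.Monic) (hg : g.Monic)
    (hdV : ∀ i, V.valuation (algebraMap E F ((μ - g * h).coeff i)) < 1) (hημ : aeval η μ = 0)
    (hηg : V.valuation (aeval η g) < 1) (hηh : V.valuation (aeval η h) = 1)
    (hmin : ∀ q : E[X], (∀ i, q.coeff i ∈ lo (V.comap (algebraMap E F)).toSubring B) →
      q.degree < g.degree → V.valuation (aeval η q) < 1 →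
      ∀ i, V.valuation (algebraMap E F (q.coeff i)) < 1) {s : ℕ} (x : Fin s → E)
    (hreg : RegP (V.comap (algebraMap E F)).toSubring (lo (V.comap (algebraMap E F)).toSubring B) x)
    (hx : ∀ i, (x i)⁻¹ ∉ (V.comap (algebraMap E F)).toSubring)
    (c1 : ∀ i, μ.coeff i ∈ lo (V.comap (algebraMap E F)).toSubring B)
    (c2 : ∀ i, g.coeff i ∈ lo (V.comap (algebraMap E F)).toSubring B)
    (c3 : ∀ i, h.coeff i ∈ lo (V.comap (algebraMap E F)).toSubring B) :
    RegP V.toSubring (lo V.toSubring (Subring.closure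
      ((B.map (algebraMap E F) : Set F) ∪ Set.range (fun _ : Unit => η))))
        (fun i => algebraMap E F (x i)) := by
  have hgV : ∀ i, algebraMap E F (g.coeff i) ∈ V := fun i => lo_le hB (c2 i)
  have hhV : ∀ i, algebraMap E F (h.coeff i) ∈ V := fun i => lo_le hB (c3 i)
  obtain ⟨m, z, hfull⟩ := h4 hreg hx
  have hF := h5 (emb E Unit) (A := AT E (fun _ : Unit => η) V) (fun e => emb_mem V e) hfull
  have hSA : B.map (emb E Unit) ≤ AT E (fun _ : Unit => η) V := by
    rintro _ ⟨e, he, rfl⟩
    exact (emb_mem V e).2 (hB he)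
  have htA : Zc E () ∈ AT E (fun _ : Unit => η) V := (Pr_Z (fun _ : Unit => η) ()).mem_AA.2 hη
  have htr := h8 (AT E (fun _ : Unit => η) V) B (∅ : Set Unit) () (Set.notMem_empty _)
  rw [Set.image_empty, Set.union_empty, Subring.closure_eq] at htr
  have hemb : ∀ e ∈ lo (V.comap (algebraMap E F)).toSubring B,
      emb E Unit e ∈ lo (AT E (fun _ : Unit => η) V) (B.map (emb E Unit)) := by
    intro e he
    rw [lo_map (emb E Unit) (A' := (V.comap (algebraMap E F)).toSubring) (fun e => emb_mem V e)]
    exact ⟨e, he, rfl⟩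
  have hback : ∀ c ∈ lo (AT E (fun _ : Unit => η) V) (B.map (emb E Unit)),
      ∃ e ∈ lo (V.comap (algebraMap E F)).toSubring B, emb E Unit e = c := by
    intro c hc
    rw [lo_map (emb E Unit) (A' := (V.comap (algebraMap E F)).toSubring) (fun e => emb_mem V e)] at hc
    exact hc
  obtain ⟨gP, hgP⟩ := lift_poly (emb E Unit) (lo (AT E (fun _ : Unit => η) V) (B.map (emb E Unit)))
    g (fun i => hemb _ (c2 i))
  have hgPev : eval₂ (lo (AT E (fun _ : Unit => η) V) (B.map (emb E Unit))).subtype (Zc E ()) gP =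
      eval (Zc E ()) (g.map (emb E Unit)) := by
    rw [← eval_map, hgP]
  have hR := h6 (loc_AA) hSA hF (Zc E ()) htA htr gP
    ((Subring.subtype_injective _).monic_map_iff.2 (by rw [hgP]; exact hg.map _))
    (by
      rw [hgPev, nu_iff (pr_eval η g) (aev_mem (P := V.toSubring) hη hgV)]
      exact hηg)
    (by
      intro q hq hqN i
      have hl : q.map (lo (AT E (fun _ : Unit => η) V) (B.map (emb E Unit))).subtype ∈
          lifts (emb E Unit) := by
        rw [lifts_iff_coeff_lifts]
        intro n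
        rw [coeff_map]
        obtain ⟨e, -, he⟩ := hback _ (q.coeff n).2
        exact ⟨e, he⟩
      obtain ⟨q', hq'⟩ := (mem_lifts _).1 hl
      have hc : ∀ n, emb E Unit (q'.coeff n) = (q.coeff n : FF E Unit) := by
        intro n
        rw [← coeff_map, hq', coeff_map]
        rfl
      have hcP : ∀ n, q'.coeff n ∈ lo (V.comap (algebraMap E F)).toSubring B := by
        intro n
        obtain ⟨e, he, he'⟩ := hback _ (q.coeff n).2
        have h10 : e = q'.coeff n := (emb E Unit).injective (by rw [he', hc])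
        rw [← h10]
        exact he
      have hcV : ∀ n, algebraMap E F (q'.coeff n) ∈ V := fun n => lo_le hB (hcP n)
      have hdeg : q'.degree < g.degree := by
        rw [← degree_map_eq_of_injective (emb E Unit).injective q', hq',
          degree_map_eq_of_injective (Subring.subtype_injective _),
          ← degree_map_eq_of_injective (emb E Unit).injective g, ← hgP,
          degree_map_eq_of_injective (Subring.subtype_injective _)]
        exact hq
      have hev : eval₂ (lo (AT E (fun _ : Unit => η) V) (B.map (emb E Unit))).subtype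
          (Zc E ()) q = eval (Zc E ()) (q'.map (emb E Unit)) := by
        rw [← eval_map, hq']
      rw [hev, nu_iff (pr_eval η q') (aev_mem (P := V.toSubring) hη hcV)] at hqN
      rw [← hc, nu_iff (Pr_emb _ _) (hcV i)]
      exact hmin q' hcP hdeg hqN i)
  rw [hgPev] at hR
  have hset : insert (Zc E ()) ((B.map (emb E Unit) : Subring (FF E Unit)) : Set (FF E Unit)) =
      ((B.map (emb E Unit) : Subring (FF E Unit)) : Set (FF E Unit)) ∪
        Set.range (Zc E : Unit → FF E Unit) := by
    rw [Set.range_unique, Set.union_comm]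
    rfl
  rw [hset] at hR
  have hRreg : IsRegularLocalRing (RZ B (fun _ : Unit => η) V) := hR.reg
  -- membership
  have hle : lo (AT E (fun _ : Unit => η) V) (B.map (emb E Unit)) ≤
      RZ B (fun _ : Unit => η) V := lo_mono fun a ha => Subring.subset_closure (Or.inl ha)
  have hZ : Zc E () ∈ RZ B (fun _ : Unit => η) V :=
    le_lo _ _ (Subring.subset_closure (Or.inr ⟨(), rfl⟩))
  have hmem : ∀ q : E[X], (∀ i, q.coeff i ∈ lo (V.comap (algebraMap E F)).toSubring B) →
      eval (Zc E ()) (q.map (emb E Unit)) ∈ RZ B (fun _ : Unit => η) V := fun q hq =>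
    ev_mem hZ fun i => by rw [coeff_map]; exact hle (hemb _ (hq i))
  have c4 : ∀ i, (μ - g * h).coeff i ∈ lo (V.comap (algebraMap E F)).toSubring B := by
    intro i
    rw [coeff_sub, coeff_mul]
    exact Subring.sub_mem _ (c1 i) (Subring.sum_mem _ fun p _ => Subring.mul_mem _ (c2 _) (c3 _))
  let Y : Fin s ⊕ Fin m → RZ B (fun _ : Unit => η) V := fun j =>
    ⟨emb E Unit (Sum.elim x z j), hR.mem (Sum.inl j)⟩
  let M : RZ B (fun _ : Unit => η) V := ⟨_, hmem μ c1⟩
  let G : RZ B (fun _ : Unit => η) V := ⟨_, hmem g c2⟩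
  let H : RZ B (fun _ : Unit => η) V := ⟨_, hmem h c3⟩
  let D : RZ B (fun _ : Unit => η) V := ⟨_, hmem (μ - g * h) c4⟩
  have hMGH : M = G * H + D := by
    apply Subtype.ext
    change eval (Zc E ()) (μ.map (emb E Unit)) = eval (Zc E ()) (g.map (emb E Unit)) *
      eval (Zc E ()) (h.map (emb E Unit)) + eval (Zc E ()) ((μ - g * h).map (emb E Unit))
    rw [Polynomial.map_sub, Polynomial.map_mul, eval_sub, eval_mul]
    ring
  have hspan : Ideal.span (Set.range (Sum.elim Y fun _ : Unit => G)) =
      maximalIdeal (RZ B (fun _ : Unit => η) V) := by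
    have h9 := hR.span
    rw [← h9]
    congr 2
    funext j
    rcases j with j | j <;> rfl
  have hDI : D ∈ Ideal.span (Set.range Y) := by
    refine ev_mem_ideal _ (⟨_, hZ⟩ : RZ B (fun _ : Unit => η) V)
      (p := (μ - g * h).map (emb E Unit)) (fun i => ?_) D rfl
    rw [coeff_map]
    refine ⟨hle (hemb _ (c4 i)), ?_⟩
    have hloc := hF.reg
    have h9 : (⟨emb E Unit ((μ - g * h).coeff i), hemb _ (c4 i)⟩ :
        lo (AT E (fun _ : Unit => η) V) (B.map (emb E Unit))) ∈ maximalIdeal _ := by
      rw [full_mem_max hF]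
      change NU _ (emb E Unit ((μ - g * h).coeff i))
      have h10 : algebraMap E F ((μ - g * h).coeff i) ∈ V := lo_le hB (c4 i)
      rw [nu_iff (Pr_emb (fun _ : Unit => η) ((μ - g * h).coeff i)) h10]
      exact hdV i
    have h10 := hF.span
    rw [← h10] at h9
    have h11 := Ideal.mem_map_of_mem (Subring.inclusion hle) h9
    rw [Ideal.map_span, ← Set.range_comp] at h11
    exact h11
  have hH : IsUnit H := by
    by_contra h9
    have h10 : H ∈ maximalIdeal (RZ B (fun _ : Unit => η) V) := (mem_maximalIdeal _).2 h9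
    rw [full_mem_max hR] at h10
    change NU _ (eval (Zc E ()) (h.map (emb E Unit))) at h10
    rw [nu_iff (pr_eval η h) (aev_mem (P := V.toSubring) hη hhV), hηh] at h10
    exact lt_irrefl _ h10
  have hYm : Ideal.span (Set.range Y) ≤ Ideal.span (Set.range (Sum.elim Y fun _ : Unit => M)) := by
    refine Ideal.span_mono ?_
    rintro _ ⟨j, rfl⟩
    exact ⟨Sum.inl j, rfl⟩
  have hYg : Ideal.span (Set.range Y) ≤ Ideal.span (Set.range (Sum.elim Y fun _ : Unit => G)) := by
    refine Ideal.span_mono ?_
    rintro _ ⟨j, rfl⟩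
    exact ⟨Sum.inl j, rfl⟩
  have hspan' : Ideal.span (Set.range (Sum.elim Y fun _ : Unit => M)) =
      maximalIdeal (RZ B (fun _ : Unit => η) V) := by
    rw [← hspan]
    apply le_antisymm
    · rw [Ideal.span_le]
      rintro _ ⟨j | j, rfl⟩
      · exact Ideal.subset_span ⟨Sum.inl j, rfl⟩
      · change M ∈ _
        rw [hMGH]
        exact Ideal.add_mem _ (Ideal.mul_mem_right _ _ (Ideal.subset_span ⟨Sum.inr (), rfl⟩))
          (hYg hDI)
    · rw [Ideal.span_le]
      rintro _ ⟨j | j, rfl⟩
      · exact Ideal.subset_span ⟨Sum.inl j, rfl⟩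
      · change G ∈ _
        refine (Ideal.mul_unit_mem_iff_mem _ hH).1 ?_
        have h9 : G * H = M - D := by rw [hMGH, add_sub_cancel_right]
        rw [h9]
        exact Ideal.sub_mem _ (Ideal.subset_span ⟨Sum.inr (), rfl⟩) (hYm hDI)
  have hInd : Ind (Sum.elim Y fun _ : Unit => M) := by
    refine ind_of_span hspan' ?_
    rw [hR.dim]
  have hY0 : ∀ j, Sum.elim x z j ≠ 0 := by
    intro j h9
    refine hInd.ne_zero (Sum.inl j) (Subtype.ext ?_)
    change emb E Unit (Sum.elim x z j) = 0
    rw [h9, map_zero]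
  have hfin := h7 (fun _ : Unit => η) V B hB hBE (fun _ => hη) Y (fun _ : Unit => M) hInd
    (fun _ => by
      rw [← hημ]
      exact pr_eval η μ) (fun j => algebraMap E F (Sum.elim x z j)) (fun j => Pr_emb _ _)
    (fun j => (_root_.map_ne_zero _).2 (hY0 j)) (fun w => by
      obtain ⟨f, hf⟩ := hgen w
      refine ⟨aeval (MvPolynomial.X ()) f, 1, ?_, ?_⟩
      · rw [map_one]
        exact one_ne_zero
      · rw [map_one, mul_one, ← hf]
        have h9 := aeval_algHom_apply (MvPolynomial.aeval (fun _ : Unit => η) :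
          MvPolynomial Unit E →ₐ[E] F) (MvPolynomial.X ()) f
        rw [MvPolynomial.aeval_X] at h9
        exact h9) (by
      have h9 : IsIntegral E η := ⟨μ, hμ, hημ⟩
      have h10 : Algebra.IsAlgebraic E F := ⟨fun w => by
        obtain ⟨f, rfl⟩ := hgen w
        rw [aeval_eq_sum_range]
        exact (IsIntegral.sum _ fun i _ => (h9.pow i).smul _).isAlgebraic⟩
      rw [trdeg_eq_zero, zero_add])
  exact regP_restr hfin Sum.inl Sum.inl_injective

end stage

/-- Adjoining a simple root of a polynomial over the local ring of a stage. -/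
theorem et6_of (h4 : S_ext.{u}) (h5 : S_map.{u}) (h6 : S_adj.{u}) (h7 : S_cut.{u})
    (h8 : S_alg.{u}) {E F : Type u} [Field E] [Field F] [Algebra E F] (V : ValuationSubring F)
    (C : Subring E) (hC : C ≤ (V.comap (algebraMap E F)).toSubring)
    (hCE : ∀ a : E, ∃ b ∈ C, b ≠ 0 ∧ a * b ∈ C) {s : ℕ} (x : Fin s → E)
    (hreg : RegP (V.comap (algebraMap E F)).toSubring (lo (V.comap (algebraMap E F)).toSubring C) x)
    (hx : ∀ i, (x i)⁻¹ ∉ (V.comap (algebraMap E F)).toSubring)
    (ω : F) (f : E[X]) (hm : f.Monic)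
    (hf : ∀ i, f.coeff i ∈ lo (V.comap (algebraMap E F)).toSubring C) (h0 : aeval ω f = 0)
    (h1 : V.valuation (aeval ω (derivative f)) = 1) (hgen : ∀ z : F, ∃ g : E[X], aeval ω g = z) :
    RegP V.toSubring (lo V.toSubring (Subring.closure
      ((C.map (algebraMap E F) : Set F) ∪ {ω}))) (fun i => algebraMap E F (x i)) := by
  have hPV : ∀ a ∈ lo (V.comap (algebraMap E F)).toSubring C, algebraMap E F a ∈ V :=
    fun a ha => lo_le hC ha
  have hinv : ∀ a ∈ lo (V.comap (algebraMap E F)).toSubring C,
      V.valuation (algebraMap E F a) = 1 → a⁻¹ ∈ lo (V.comap (algebraMap E F)).toSubring C := by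
    intro a ha h2
    refine hreg.inv a ha ?_ ?_
    · rintro rfl
      rw [map_zero, map_zero] at h2
      exact zero_ne_one h2
    · change algebraMap E F a⁻¹ ∈ V
      rw [← V.valuation_le_one_iff, map_inv₀, map_inv₀, h2, inv_one]
  obtain ⟨g, h, hgm, hgP, hhP, hd, hg1, hh1, hmin⟩ := coreP V _ hPV hinv ω f hm hf h0 h1
  have hω : ω ∈ V := mem_of_root hm (fun i => hPV _ (hf i)) h0
  have key := stageP V h4 h5 h6 h7 h8 C hC hCE ω hω hgen f g h hm hgm hd h0 hg1 hh1 hmin x hreg
    hx hf hgP hhP
  rwa [Set.range_const] at key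

end Pool.Agent.Y739.DT6
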